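import Pool.Agent.Lib.MP_364315_al.Defs

/-!
Six left negations give the isomorphisms or all maps.
-/

set_option autoImplicit false

open CategoryTheory

universe u

namespace Pool.Agent.Lib.MP_364315_al

/-- Injective maps. -/
def inj : MorphismProperty TopCat.{u} := fun _ _ f => Function.Injective f

/-- Split epimorphisms. -/
def spl : MorphismProperty TopCat.{u} := fun _ Y f => ∃ s : Y ⟶ _, s ≫ f = 𝟙 Y

/-- Maps whose image is contained in no proper clopen set. -/
def cden : MorphismProperty TopCat.{u} := fun _ Y f =>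
  ∀ U : Set Y, IsClopen U → Set.range f ⊆ U → U = Set.univ

/-- The indiscrete two point space. -/
abbrev I2 : TopCat.{u} := @TopCat.of (ULift.{u} Bool) ⊤

/-- The one point space. -/
abbrev Pt : TopCat.{u} := TopCat.of PUnit.{u + 1}

/-- Any function into the indiscrete two point space is continuous. -/
def toI2 {X : TopCat.{u}} (f : X → ULift.{u} Bool) : X ⟶ I2.{u} :=
  @TopCat.ofHom X (ULift.{u} Bool) _ ⊤ (@ContinuousMap.mk _ _ _ ⊤ f continuous_top)

/-- The map to the point. -/
def toPt (X : TopCat.{u}) : X ⟶ Pt.{u} :=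
  TopCat.ofHom ⟨fun _ => PUnit.unit, continuous_const⟩

/-- The map from the point picking `x`. -/
def fromPt {X : TopCat.{u}} (x : X) : Pt.{u} ⟶ X :=
  TopCat.ofHom ⟨fun _ => x, continuous_const⟩

theorem toI2_apply {X : TopCat.{u}} (f : X → ULift.{u} Bool) (x : X) : toI2 f x = f x := rfl

theorem fromPt_apply {X : TopCat.{u}} (x : X) (p : Pt.{u}) : fromPt x p = x := rfl

theorem lift_exists {A B X Y : TopCat.{u}} {i : A ⟶ B} {p : X ⟶ Y} (h : HasLiftingProperty i p)
    (f : A ⟶ X) (g : B ⟶ Y) (w : f ≫ p = i ≫ g) :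
    ∃ t : B ⟶ X, i ≫ t = f ∧ t ≫ p = g := by
  have sq : CommSq f i p g := ⟨w⟩
  exact ⟨sq.lift, sq.fac_left, sq.fac_right⟩

theorem mk_lift {A B X Y : TopCat.{u}} {i : A ⟶ B} {p : X ⟶ Y}
    (h : ∀ (f : A ⟶ X) (g : B ⟶ Y), f ≫ p = i ≫ g → ∃ t : B ⟶ X, i ≫ t = f ∧ t ≫ p = g) :
    HasLiftingProperty i p :=
  ⟨fun {f} {g} sq => by
    obtain ⟨t, h1, h2⟩ := h f g sq.w
    exact CommSq.HasLift.mk' ⟨t, h1, h2⟩⟩

/-- A map lifting on the left against `I2 → Pt` is injective. -/
theorem inj_of_lift {C D : TopCat.{u}} (g : C ⟶ D) (h : HasLiftingProperty g (toPt I2.{u})) :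
    Function.Injective g := by
  classical
  intro c c' hcc
  by_contra hne
  obtain ⟨t, h1, -⟩ := lift_exists h (toI2 fun x => ULift.up (decide (x = c))) (toPt D) rfl
  have e1 : t (g c) = ULift.up (decide (c = c)) := congrArg (fun m : C ⟶ I2.{u} => m c) h1
  have e2 : t (g c') = ULift.up (decide (c' = c)) := congrArg (fun m : C ⟶ I2.{u} => m c') h1
  rw [hcc, e2] at e1
  have e3 := congrArg ULift.down e1
  simp only [decide_true, decide_eq_true_eq] at e3
  exact hne e3.symm

/-- If a left class contains a non injective map, it contains `I2 → Pt`. -/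
theorem alpha_mem (P : MorphismProperty TopCat.{u}) {A B : TopCat.{u}} (f : A ⟶ B)
    (hf : P.llp f) (hni : ¬ Function.Injective f) : P.llp (toPt I2.{u}) := by
  classical
  intro X Y p hp
  have hl := hf p hp
  rw [Function.not_injective_iff] at hni
  obtain ⟨a, a', haa, hne⟩ := hni
  apply mk_lift
  intro x y w
  obtain ⟨t, h1, h2⟩ := lift_exists hl (toI2 (fun z => ULift.up (decide (z = a))) ≫ x)
    (toPt B ≫ y) (by rw [Category.assoc, w]; rfl)
  have e1 : t (f a) = x (ULift.up (decide (a = a))) := congrArg (fun m : A ⟶ X => m a) h1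
  have e2 : t (f a') = x (ULift.up (decide (a' = a))) := congrArg (fun m : A ⟶ X => m a') h1
  have e3 : x (ULift.up true) = x (ULift.up false) := by
    rw [haa, e2] at e1
    simp only [decide_true] at e1
    rw [← e1, decide_eq_false (Ne.symm hne)]
  refine ⟨fromPt (x (ULift.up true)), ?_, ?_⟩
  · ext z
    rcases z with ⟨_ | _⟩
    · exact e3
    · rfl
  · ext z
    exact congrArg (fun m : I2.{u} ⟶ Y => m (ULift.up true)) w

theorem dichotomy (P : MorphismProperty TopCat.{u}) : P.llp ≤ inj ∨ P.llp.llp ≤ inj := by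
  by_cases h : P.llp ≤ inj
  · exact Or.inl h
  · right
    have : ∃ (A B : TopCat.{u}) (f : A ⟶ B), P.llp f ∧ ¬ Function.Injective f := by
      by_contra hcon
      apply h
      intro A B f hf
      by_contra hni
      exact hcon ⟨A, B, f, hf, hni⟩
    obtain ⟨A, B, f, hf, hni⟩ := this
    intro C D g hg
    exact inj_of_lift g (hg _ (alpha_mem P f hf hni))

theorem spl_le : spl.{u} ≤ inj.llp := by
  rintro E D q ⟨s, hs⟩ X Y m hm
  apply mk_lift
  intro x y w
  have h2 : (s ≫ x) ≫ m = y := by rw [Category.assoc, w, ← Category.assoc, hs, Category.id_comp]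
  refine ⟨s ≫ x, ?_, h2⟩
  ext e
  apply hm
  have h3 : (q ≫ s ≫ x) ≫ m = x ≫ m := by rw [Category.assoc, h2, w]
  exact congrArg (fun k : E ⟶ Y => k e) h3

theorem cden_le : cden.{u} ≤ spl.llp.llp := by
  intro A B e he C D g hg
  let S : TopCat.{u} := TopCat.of (C ⊕ D)
  let q : S ⟶ D := TopCat.ofHom ⟨Sum.elim g id, g.hom.continuous.sumElim continuous_id⟩
  let i : C ⟶ S := TopCat.ofHom ⟨Sum.inl, continuous_inl⟩
  let j : D ⟶ S := TopCat.ofHom ⟨Sum.inr, continuous_inr⟩
  have hq : spl q := ⟨j, rfl⟩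
  obtain ⟨s, hs1, hs2⟩ := lift_exists (hg q hq) i (𝟙 D) rfl
  apply mk_lift
  intro x y w
  have hcl : IsClopen ((y ≫ s) ⁻¹' Set.range (Sum.inl : C → C ⊕ D)) :=
    isClopen_range_inl.preimage (y ≫ s).hom.continuous
  have hsv : ∀ a : A, s (y (e a)) = Sum.inl (x a) := by
    intro a
    have h1 : y (e a) = g (x a) := (congrArg (fun k : A ⟶ D => k a) w).symm
    rw [h1]
    exact congrArg (fun k : C ⟶ S => k (x a)) hs1
  have hall := he _ hcl (by
    rintro _ ⟨a, rfl⟩
    exact ⟨x a, (hsv a).symm⟩)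
  have hex : ∀ b : B, ∃ c : C, (Sum.inl c : C ⊕ D) = s (y b) := by
    intro b
    have : b ∈ ((y ≫ s) ⁻¹' Set.range (Sum.inl : C → C ⊕ D)) := by rw [hall]; trivial
    exact this
  choose t ht using hex
  have htc : Continuous t := by
    rw [(Topology.IsEmbedding.inl (X := C) (Y := D)).isInducing.continuous_iff]
    have : (Sum.inl ∘ t : B → C ⊕ D) = (y ≫ s) := funext ht
    rw [this]
    exact (y ≫ s).hom.continuous
  refine ⟨TopCat.ofHom ⟨t, htc⟩, ?_, ?_⟩
  · ext a
    have := ht (e a)
    rw [hsv a] at this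
    exact Sum.inl_injective this
  · ext b
    have h1 : q (s (y b)) = y b := congrArg (fun k : D ⟶ D => k (y b)) hs2
    rw [← ht b] at h1
    exact h1

theorem isIso_of_self {A B : TopCat.{u}} (h : A ⟶ B) (hh : HasLiftingProperty h h) : IsIso h := by
  obtain ⟨t, h1, h2⟩ := lift_exists hh (𝟙 A) (𝟙 B) (by simp)
  exact ⟨⟨t, h1, h2⟩⟩

theorem cden_llp_le : cden.{u}.llp ≤ MorphismProperty.isomorphisms TopCat.{u} := by
  classical
  intro C D h hh
  have hpt : cden (fromPt (X := I2.{u}) (ULift.up true)) := by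
    intro U hU hr
    have hne : U.Nonempty := ⟨_, hr ⟨PUnit.unit, rfl⟩⟩
    have hopen : @IsOpen (ULift.{u} Bool) ⊤ U := @IsClopen.isOpen _ I2.str U hU
    rcases (TopologicalSpace.isOpen_top_iff U).1 hopen with h0 | h1
    · rw [h0] at hne
      exact absurd hne Set.not_nonempty_empty
    · exact h1
  have hsurj : Function.Surjective h := by
    obtain ⟨t, -, h2⟩ := lift_exists (hh _ hpt) (toPt C)
      (toI2 fun d => ULift.up (decide (d ∈ Set.range h))) (by
        ext c
        have : h c ∈ Set.range h := ⟨c, rfl⟩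
        change true = decide (h c ∈ Set.range h)
        rw [decide_eq_true this])
    intro d
    have h3 : ULift.up true = ULift.up (decide (d ∈ Set.range h)) :=
      congrArg (fun k : D ⟶ I2.{u} => k d) h2
    have h4 := congrArg ULift.down h3
    exact of_decide_eq_true h4.symm
  have hc : cden h := by
    intro U _ hr
    rw [hsurj.range_eq] at hr
    exact Set.eq_univ_of_univ_subset hr
  exact isIso_of_self h (hh h hc)

theorem iso_le_llp (Q : MorphismProperty TopCat.{u}) :
    MorphismProperty.isomorphisms TopCat.{u} ≤ Q.llp := by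
  intro A B f hf
  have : IsIso f := hf
  exact Q.llp_of_isIso f

theorem four (Q : MorphismProperty TopCat.{u}) (hQ : Q ≤ inj) :
    Q.llp.llp.llp.llp = MorphismProperty.isomorphisms TopCat.{u} := by
  apply le_antisymm _ (iso_le_llp _)
  have h1 : spl ≤ Q.llp := spl_le.trans (MorphismProperty.antitone_llp hQ)
  have h2 : Q.llp.llp ≤ spl.llp := MorphismProperty.antitone_llp h1
  have h3 : cden ≤ Q.llp.llp.llp := cden_le.trans (MorphismProperty.antitone_llp h2)
  exact (MorphismProperty.antitone_llp h3).trans cden_llp_le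

theorem iso_llp : (MorphismProperty.isomorphisms TopCat.{u}).llp = ⊤ := by
  apply le_antisymm le_top
  intro A B f _ X Y p hp
  have : IsIso p := hp
  infer_instance

theorem top_llp : (⊤ : MorphismProperty TopCat.{u}).llp = MorphismProperty.isomorphisms _ := by
  apply le_antisymm _ (iso_le_llp _)
  intro A B f hf
  exact isIso_of_self f (hf f trivial)

theorem six_eq_eight (P : MorphismProperty TopCat.{u}) :
    P.llp.llp.llp.llp.llp.llp = P.llp.llp.llp.llp.llp.llp.llp.llp := by
  rcases dichotomy P with h | h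
  · rw [four _ h, iso_llp, top_llp, iso_llp]
  · rw [four _ h, iso_llp, top_llp]

/-- The degree of a letter. -/
def deg : Letter → Multiplicative ℤ
  | Letter.l => Multiplicative.ofAdd 1
  | Letter.r => Multiplicative.ofAdd (-1)

theorem deg_rels (a b : FreeMonoid Letter) (h : rels a b) :
    FreeMonoid.lift deg a = FreeMonoid.lift deg b := by
  rcases h with ⟨rfl, rfl⟩ | ⟨rfl, rfl⟩ <;> rfl

end Pool.Agent.Lib.MP_364315_al
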