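import Pool.Agent.Lib.MP_364315_al.Tools

/-!
The right closure of the left closure of a right class takes finitely many values.
-/

set_option autoImplicit false

open CategoryTheory Topology Set Filter

universe u

namespace Pool.Agent.Lib.MP_364315_al

open MorphismProperty

variable {A B X Y : TopCat.{u}}

theorem ub {C N : MP.{u}} (h1 : C.rlp.llp ≤ C) (h2 : C.llp.rlp ≤ C) (hN : N ≤ C) :
    N.rlp.llp.llp.rlp ≤ C :=
  (antitone_rlp (antitone_llp ((antitone_llp (antitone_rlp hN)).trans h1))).trans h2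

theorem lift_is {g : A ⟶ B} {f : X ⟶ Y} (hg : Function.Injective g ∨ Function.Injective f)
    (h1 : Function.Surjective f) (h2 : IsInducing f) : HasLiftingProperty g f :=
  mk_ind h2 hg fun _ _ _ _ => h1 _

theorem lift_sj {g : A ⟶ B} {f : X ⟶ Y} (hg : Function.Injective g ∨ Function.Injective f)
    (h1 : Function.Surjective g) (h2 : IsInducing f) : HasLiftingProperty g f :=
  mk_ind h2 hg fun _ _ h b => by
    obtain ⟨a, rfl⟩ := h1 b
    exact h a

theorem lift_dn {g : A ⟶ B} {f : X ⟶ Y} (hg : Function.Injective g ∨ Function.Injective f)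
    (h1 : DenseRange g) (h2 : clo f) : HasLiftingProperty g f :=
  mk_ind h2.1 hg fun _ hv h b => h1.induction_on b (h2.2.preimage hv) h

theorem surj_toPt [Nonempty X] : Function.Surjective (toPt X) := fun _ =>
  ⟨Classical.arbitrary X, rfl⟩

theorem ub_inj {N : MP.{u}} (hN : N ≤ inj) : N.rlp.llp.llp.rlp ≤ inj :=
  ub (fun _ _ _ hf => inj_of_i (hf _ fun _ _ _ hg =>
      lift_is (Or.inl hg) (fun _ => ⟨⟨0⟩, rfl⟩) ind_toPt_in))
    (fun _ _ _ hf => inj_of_d (hf _ (spl_le _ ⟨fromPt (X := TopCat.of _) ⟨true⟩, rfl⟩))) hN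

theorem e_lift {f : X ⟶ Y} (hf : Function.Surjective f) : HasLiftingProperty (eM Pt) f :=
  mk_fun fun _ v _ _ _ => by
    obtain ⟨x, hx⟩ := hf (v PUnit.unit)
    exact ⟨fun _ => x, continuous_const, fun a => a.elim, fun _ => hx⟩

theorem ub_surj {N : MP.{u}} (hN : N ≤ surj) : N.rlp.llp.llp.rlp ≤ surj :=
  ub (fun _ _ _ hf => surj_of_p (hf _ fun _ _ _ hg =>
      lift_sj (Or.inr fun _ _ _ => rfl) hg (ind_fromPt _)))
    (fun _ _ _ hf => surj_of_e (hf _ fun _ _ _ hg => e_lift hg)) hN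

theorem ind_l {C : MP.{u}} (h : C ≤ ind) : C.rlp.llp ≤ ind :=
  fun _ _ _ hf => ind_of_s (hf _ fun _ _ _ hg => ind_lift_s (h _ hg))

theorem ind_r {C : MP.{u}} (h : C ≤ ind) : C.llp.rlp ≤ ind :=
  fun _ _ f hf => ind_of_toInd (hf _ fun _ _ _ hg =>
    lift_sj (g := toInd f) (Or.inl fun _ _ e => e) (fun x => ⟨x, rfl⟩) (h _ hg))

theorem ub_ind {N : MP.{u}} (hN : N ≤ ind) : N.rlp.llp.llp.rlp ≤ ind :=
  ub (ind_l le_rfl) (ind_r le_rfl) hN

theorem ub_clo {N : MP.{u}} (hN : N ≤ clo) : N.rlp.llp.llp.rlp ≤ clo := by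
  have hc : clo.{u} ≤ ind := fun _ _ _ h => h.1
  refine ub (fun _ _ _ hf => ⟨ind_l hc _ hf, clo_of_t (hf _ fun _ _ _ hg => clo_lift_t hg)⟩)
    (fun X Y f hf => ⟨ind_r hc _ hf, ?_⟩) hN
  have hi : IsInducing f := ind_r hc _ hf
  let g : TopCat.of (range f) ⟶ TopCat.of (closure (range f)) :=
    hom (inclusion subset_closure) (continuous_inclusion _)
  have hg : clo.llp g := fun _ _ _ h => lift_dn (Or.inl (inclusion_injective subset_closure))
    ((denseRange_inclusion_iff subset_closure).2 subset_rfl) h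
  choose s hs using fun y : range f => y.2
  obtain ⟨t, -, -, h1⟩ := lift_fun (hf g hg) s Subtype.val
    (hi.continuous_iff.2 ((funext hs : f ∘ s = Subtype.val) ▸ continuous_subtype_val))
    continuous_subtype_val hs
  exact isClosed_of_closure_subset fun y hy => ⟨_, h1 ⟨y, hy⟩⟩

variable {P : MP.{u}}

theorem not_le {C D : MP.{u}} (h : ¬ C ≤ D) : ∃ (X Y : TopCat.{u}) (f : X ⟶ Y), C f ∧ ¬ D f := by
  by_contra h1
  exact h fun X Y f hf => by_contra fun h2 => h1 ⟨X, Y, f, hf, h2⟩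

theorem empty_mem (h : ¬ P.rlp ≤ surj) (k : X ⟶ Y) (hX : IsEmpty X) : P.rlp k := by
  obtain ⟨X', Y', f, hf, h1⟩ := not_le h
  obtain ⟨y, hy⟩ := not_forall.1 h1
  intro A B g hg
  refine mk_fun fun a _ _ _ _ => ?_
  have hA : IsEmpty A := ⟨fun x => hX.elim (a x)⟩
  obtain ⟨t, -, -, h2⟩ := lift_fun (hf g hg) (fun x => hA.elim x) (fun _ => y)
    (continuous_of_discreteTopology) continuous_const fun x => hA.elim x
  have hB : IsEmpty B := ⟨fun b => hy ⟨_, h2 b⟩⟩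
  exact ⟨fun b => hB.elim b, continuous_of_discreteTopology, fun x => hA.elim x,
    fun b => hB.elim b⟩

/-- The inclusion of a summand. -/
def inlM (X Z : TopCat.{u}) : X ⟶ TopCat.of (X ⊕ Z) := hom Sum.inl continuous_inl

theorem inl_mem (h : ¬ P.rlp ≤ surj) (X Z : TopCat.{u}) : P.rlp.rlp.llp (inlM X Z) := by
  intro X' Y' k hk
  refine mk_fun fun a b ha hb w => ?_
  obtain ⟨t, ht, -, h2⟩ := lift_fun (hk _ (empty_mem h (eM Z) (inferInstanceAs (IsEmpty PEmpty))))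
    (fun x => x.elim) (fun z => b (Sum.inr z)) continuous_of_discreteTopology
    (hb.comp continuous_inr) fun x => x.elim
  exact ⟨Sum.elim a t, ha.sumElim ht, fun _ => rfl, fun z => z.casesOn w h2⟩

theorem i_mem {Q : MP.{u}} {f : A ⟶ B} (hf : Q.llp f) (h : ¬ Function.Injective f) :
    Q.llp iM := by
  classical
  obtain ⟨a, a', e, hne⟩ := Function.not_injective_iff.1 h
  intro X Y k hk
  refine mk_fun fun p q hp _ w => ?_
  obtain ⟨t, -, h1, -⟩ := lift_fun (hf k hk) (fun x => p ⟨if x = a then 1 else 0⟩)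
    (fun _ => q PUnit.unit) (hp.comp (cont_in _)) continuous_const fun _ => w _
  have h2 : p ⟨1⟩ = p ⟨0⟩ := by
    have h3 := (h1 a).symm.trans (e ▸ h1 a' : t (f a) = _)
    simpa [hne.symm] using h3
  refine ⟨fun _ => p ⟨0⟩, continuous_const, fun ⟨k⟩ => ?_, fun _ => w _⟩
  fin_cases k
  exacts [rfl, h2.symm]

theorem prod_trick {f : A ⟶ B} (hf : P.rlp f) (a₀ : A) {b₀ : B} (hb : b₀ ∉ range f)
    {k : X ⟶ Y} (hk : P.rlp.rlp k) (x : X) (y : Y)
    (hy : Inseparable y (k x) ∨ (y ⤳ k x ∧ IsClosed (range f))) :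
    ∃ x', k x' = y ∧ x' ⤳ x ∧ (b₀ ∈ closure (range f) → x ⤳ x') := by
  classical
  let ι : Type u := Set (X ⊕ ULift.{u} ℕ)
  let F : TopCat.of (ι → A) ⟶ TopCat.of (ι → B) :=
    hom (fun a i => f (a i)) (continuous_pi fun i => (cont f).comp (continuous_apply i))
  have hF : P.rlp F := fun C D g hg => mk_fun fun p q hp hq w => by
    choose t h1 h2 h3 using fun i => lift_fun (hf g hg) (fun c => p c i) (fun d => q d i)
      ((continuous_apply i).comp hp) ((continuous_apply i).comp hq) fun c => congrFun (w c) i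
    exact ⟨fun d i => t i d, continuous_pi h1, fun c => funext fun i => h2 i c,
      fun d => funext fun i => h3 i d⟩
  have hr : range F = univ.pi fun _ => range f := range_piMap fun _ : ι => (f : A → B)
  obtain ⟨t, ht, h1, h2⟩ := lift_fun (hk F hF) (fun _ => x)
    (fun z => if z ∈ (range F)ᶜ then y else k x) continuous_const (by
      rcases hy with hy | hy
      · refine cont_insep fun z z' => ?_
        split_ifs
        exacts [.refl _, hy, hy.symm, .refl _]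
      · exact cont_ite (hr ▸ isClosed_set_pi fun _ _ => hy.2).isOpen_compl hy.1)
    fun a => by rw [if_neg fun h => h (mem_range_self a)]
  let b : ι → ι → B := fun i => Function.update (fun _ => f a₀) i b₀
  obtain ⟨x', hx'⟩ := Cardinal.exists_infinite_fiber'
    (fun i : ι => (Sum.inl (t (b i)) : X ⊕ ULift.{u} ℕ))
    (by simpa only [ι, Cardinal.mk_set] using Cardinal.cantor _)
  have hinf := Set.infinite_coe_iff.1 hx'
  obtain ⟨i₀, rfl⟩ := hinf.nonempty
  refine ⟨t (b i₀), ?_, specializes_iff_forall_open.2 fun W hW hx => ?_, fun hc => ?_⟩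
  · rw [h2, if_pos]
    rw [hr]
    exact fun h => hb (by simpa [b] using h i₀ trivial)
  · have h3 : Tendsto b cofinite (𝓝 fun _ => f a₀) := tendsto_pi_nhds.2 fun j =>
      tendsto_const_nhds.congr' ((eventually_cofinite_ne j).mono fun i hi =>
        (Function.update_of_ne hi.symm b₀ fun _ => f a₀).symm)
    have h4 : ∀ᶠ i in cofinite, t (b i) ∈ W :=
      (ht.continuousAt.tendsto.comp h3).eventually (hW.mem_nhds ((h1 fun _ => a₀).symm ▸ hx))
    obtain ⟨i, hi, h5⟩ := hinf.exists_notMem_finite h4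
    have h6 : t (b i) = t (b i₀) := Sum.inl_injective hi
    exact h6 ▸ not_not.1 h5
  · have h3 : b i₀ ∈ closure (range F) := by
      rw [hr, closure_pi_set]
      intro j _
      by_cases e : j = i₀
      · subst e
        simpa [b] using hc
      · simp only [b, Function.update_of_ne e]
        exact subset_closure (mem_range_self _)
    rw [specializes_iff_mem_closure]
    refine map_mem_closure ht h3 ?_
    rintro _ ⟨a, rfl⟩
    exact h1 a

theorem pI_mem {f : A ⟶ B} (hf : P.rlp f) (hc : ¬ IsClosed (range f)) : P.rlp.rlp.llp pI := by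
  obtain ⟨b₀, h1, h2⟩ := not_subset.1 fun h => hc (isClosed_of_closure_subset h)
  obtain ⟨_, a₀, rfl⟩ : (range f).Nonempty := closure_nonempty_iff.1 ⟨_, h1⟩
  intro X Y k hk
  refine mk_fun fun p q _ hq w => ?_
  have w0 : k (p PUnit.unit) = q ⟨0⟩ := w _
  obtain ⟨x', h3, h4, h5⟩ := prod_trick hf a₀ h2 hk (p PUnit.unit) (q ⟨1⟩)
    (Or.inl (w0 ▸ (in_insep _ _).map hq))
  have h6 : Inseparable x' (p PUnit.unit) := h4.antisymm (h5 h1)
  refine ⟨fun a => ![p PUnit.unit, x'] a.v, cont_insep fun ⟨a⟩ ⟨b⟩ => ?_, fun _ => rfl,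
    fun ⟨a⟩ => ?_⟩
  · fin_cases a <;> fin_cases b
    exacts [.refl _, h6.symm, h6, .refl _]
  · fin_cases a
    exacts [w0, h3]

theorem cont_ch {n : ℕ} {t : ChT.{u} n → X} (h : ∀ a b, a.v ≤ b.v → t b ⤳ t a) : Continuous t :=
  ⟨fun _ hU a b hab ha => (h a b hab).mem_open hU ha⟩

theorem pC_mem {f : A ⟶ B} (hf : P.rlp f) (hc : IsClosed (range f)) (a₀ : A)
    (hs : ¬ Function.Surjective f) : P.rlp.rlp.llp pC := by
  obtain ⟨b₀, h2⟩ := not_forall.1 hs
  intro X Y k hk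
  refine mk_fun fun p q _ hq w => ?_
  have w0 : k (p PUnit.unit) = q ⟨0⟩ := w _
  obtain ⟨x', h3, h4, -⟩ := prod_trick hf a₀ h2 hk (p PUnit.unit) (q ⟨1⟩)
    (Or.inr ⟨w0 ▸ ch10.map hq, hc⟩)
  refine ⟨fun a => ![p PUnit.unit, x'] a.v, cont_ch fun ⟨a⟩ ⟨b⟩ hab => ?_, fun _ => rfl,
    fun ⟨a⟩ => ?_⟩
  · fin_cases a <;> fin_cases b
    exacts [specializes_rfl, h4, absurd hab (by decide), specializes_rfl]
  · fin_cases a
    exacts [w0, h3]

theorem qo_mem (h : ¬ P.rlp ≤ ind) {g : A ⟶ B} (hg : P.rlp.rlp.llp.llp g) : Qo g := by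
  classical
  obtain ⟨X, Y, f, hf, h1⟩ := not_le h
  obtain ⟨U, hU, h2⟩ : ∃ U, IsOpen U ∧ ¬ ∃ V, IsOpen V ∧ f ⁻¹' V = U := by
    by_contra h3
    exact h1 (ind_mk fun U hU => by_contra fun h4 => h3 ⟨U, hU, h4⟩)
  by_cases h3 : ∃ x ∈ U, ∃ x' ∉ U, f x' = f x
  · obtain ⟨x, hx, x', hx', e⟩ := h3
    have hF : P.rlp (toPt (TopCat.of (f ⁻¹' {f x}))) := fun C D g hg =>
      mk_fun fun p _ hp _ _ => by
        obtain ⟨t, ht, h4, h5⟩ := lift_fun (hf g hg) (fun c => (p c).1) (fun _ => f x)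
          (continuous_subtype_val.comp hp) continuous_const fun c => (p c).2
        exact ⟨fun d => ⟨t d, h5 d⟩, ht.subtype_mk _, fun c => Subtype.ext (h4 c), fun _ => rfl⟩
    refine qo_of_z (hg _ fun X' Y' k hk => mk_fun fun p q hp _ w => ?_)
    have w0 : k (p ⟨0⟩) = q ⟨0⟩ := w _
    have w3 : k (p ⟨3⟩) = q ⟨0⟩ := w _
    obtain ⟨t, -, h4, -⟩ := lift_fun (hk _ hF)
      (fun z => if z ∈ Subtype.val ⁻¹' U then p ⟨3⟩ else p ⟨0⟩) (fun _ => q ⟨0⟩)
      (cont_ite (hU.preimage continuous_subtype_val) ((ch_spec (by decide)).map hp))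
      continuous_const fun z => by split_ifs <;> assumption
    have h5 : p ⟨3⟩ = p ⟨0⟩ := by
      have h6 := (h4 ⟨x, rfl⟩).symm.trans (h4 ⟨x', e⟩)
      simpa [hx, hx'] using h6
    have h7 : ∀ a, Inseparable (p a) (p ⟨0⟩) := fun a =>
      ((ch_spec (Fin.zero_le _)).map hp).antisymm (h5 ▸ (ch_spec (Fin.le_last a.v)).map hp)
    refine ⟨fun a => p ⟨a.v.castSucc⟩, cont_insep fun a b => (h7 _).trans (h7 _).symm,
      fun ⟨a⟩ => ?_, fun ⟨a⟩ => ?_⟩
    · fin_cases a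
      exacts [rfl, rfl, rfl, h5.symm]
    · fin_cases a
      exacts [w0, w ⟨1⟩, w ⟨2⟩]
  · refine qo_of_sg (hg _ fun X' Y' k hk => mk_fun fun p q hp hq w => ?_)
    have h4 : ∀ x, f x ∈ f '' U ↔ x ∈ U := fun x =>
      ⟨fun ⟨x', hx', e⟩ => by_contra fun hx => h3 ⟨x', hx', x, hx, e.symm⟩, mem_image_of_mem _⟩
    obtain ⟨t, ht, h5, -⟩ := lift_fun (hk _ hf) (fun z => if z ∈ U then p ⟨1⟩ else p ⟨0⟩)
      (fun z => q (if z ∈ f '' U then ⟨1⟩ else ⟨0⟩)) (cont_ite hU (ch10.map hp))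
      (hq.comp (cont_in _)) fun z => by
        simp only [h4]
        split_ifs
        exacts [w ⟨1⟩, w ⟨0⟩]
    have h6 : p ⟨0⟩ ⤳ p ⟨1⟩ := specializes_iff_forall_open.2 fun W hW h7 => by_contra fun h8 =>
      h2 ⟨_, hW.preimage ht, ext fun z => by
        simp only [mem_preimage, h5]
        split_ifs with h9 <;> simp [h7, h8, h9]⟩
    have h7 : ∀ a, Inseparable (p a) (p ⟨0⟩) := fun ⟨a⟩ => by
      fin_cases a
      exacts [.refl _, (ch10.map hp).antisymm h6]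
    exact ⟨fun a => p ⟨a.v⟩, cont_insep fun a b => (h7 _).trans (h7 _).symm, fun _ => rfl,
      fun a => w ⟨a.v⟩⟩

/-- The class cut out by some of four conditions. -/
def cls (b : Prop × Prop × Prop × Prop) : MP.{u} := fun _ _ f =>
  (b.1 → inj f) ∧ (b.2.1 → surj f) ∧ (b.2.2.1 → ind f) ∧ (b.2.2.2 → clo f)

/-- The two exceptional right classes. -/
def exc (b : Prop) : MP.{u} := fun X _ f => IsEmpty X ∨ (surj f ∧ ind f ∧ (b → inj f))

theorem emb_mem {f : X ⟶ Y} (h1 : Function.Injective f) (h2 : IsInducing f)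
    (hs : P.rlp ≤ surj → surj f) (hc : P.rlp ≤ clo → IsClosed (range f))
    (hex : ¬ (¬ P.rlp ≤ surj ∧ P.rlp ≤ ind ∧
      ∀ (A B : TopCat.{u}) (k : A ⟶ B), P.rlp k → IsEmpty A ∨ surj k)) :
    P.rlp.rlp.llp.llp.rlp f := by
  by_cases b2 : P.rlp ≤ surj
  · exact fun _ _ _ _ => lift_is (Or.inr h1) (hs b2) h2
  by_cases b5 : ∃ (A B : TopCat.{u}) (k : A ⟶ B), P.rlp k ∧ ¬ IsClosed (range k)
  · obtain ⟨A, B, k, hk, h3⟩ := b5
    exact fun _ _ g hg => lift_sj (Or.inr h1) (surj_of_p (hg _ (pI_mem hk h3))) h2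
  push Not at b5
  by_cases b3 : P.rlp ≤ ind
  · obtain ⟨A, B, k, hk, h3⟩ : ∃ (A B : TopCat.{u}) (k : A ⟶ B), P.rlp k ∧
        ¬ (IsEmpty A ∨ surj k) := by
      by_contra h3
      exact hex ⟨b2, b3, fun A B k hk => by_contra fun h4 => h3 ⟨A, B, k, hk, h4⟩⟩
    obtain ⟨a₀⟩ := not_isEmpty_iff.1 fun h => h3 (Or.inl h)
    exact fun _ _ g hg => lift_dn (Or.inr h1)
      (dense_of_p (hg _ (pC_mem hk (b5 A B k hk) a₀ fun h => h3 (Or.inr h))))
      ⟨h2, hc fun A B k hk => ⟨b3 k hk, b5 A B k hk⟩⟩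
  · let q : TopCat.of (X ⊕ TopCat.of ((range f)ᶜ : Set Y)) ⟶ Y :=
      hom (Sum.elim f Subtype.val) ((cont f).sumElim continuous_subtype_val)
    have hq : Function.Bijective q := by
      refine ⟨h1.sumElim Subtype.val_injective fun x y e => y.2 ⟨x, e⟩, fun y => ?_⟩
      by_cases h : y ∈ range f
      · obtain ⟨x, rfl⟩ := h
        exact ⟨Sum.inl x, rfl⟩
      · exact ⟨Sum.inr ⟨y, h⟩, rfl⟩
    exact (P.rlp.rlp.llp.llp.rlp).comp_mem (inlM X _) q (fun _ _ _ hg => hg _ (inl_mem b2 X _))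
      fun _ _ g hg => lift_bij (qo_mem b3 hg) hq

theorem classify (P : MP.{u}) :
    (∃ b, P.rlp.rlp.llp.llp.rlp = cls b) ∨ ∃ b, P.rlp = exc b := by
  by_cases hex : ¬ P.rlp ≤ surj ∧ P.rlp ≤ ind ∧
      ∀ (A B : TopCat.{u}) (k : A ⟶ B), P.rlp k → IsEmpty A ∨ surj k
  · refine Or.inr ⟨P.rlp ≤ inj, le_antisymm (fun A B k hk => (hex.2.2 A B k hk).imp_right
      fun h => ⟨h, hex.2.1 k hk, fun h1 => h1 k hk⟩) fun A B k hk => ?_⟩
    rcases hk with hk | ⟨h1, h2, h3⟩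
    · exact empty_mem hex.1 k hk
    by_cases b1 : P.rlp ≤ inj
    · exact fun _ _ _ _ => lift_is (Or.inr (h3 b1)) h1 h2
    classical
    obtain ⟨X, Y, f, hf, h4⟩ := not_le b1
    obtain ⟨x, x', e, hne⟩ := Function.not_injective_iff.1 h4
    have h5 : Inseparable x x' := (hex.2.1 f hf).inseparable_iff.1 (.of_eq e)
    refine fun C D g hg => lift_is (Or.inl fun c c' e' => by_contra fun h6 => hne ?_) h1 h2
    obtain ⟨t, -, h7, -⟩ := lift_fun (hf g hg) (fun z => if z = c then x else x') (fun _ => f x)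
      (cont_insep fun z z' => by
        split_ifs
        exacts [.refl _, h5, h5.symm, .refl _]) continuous_const fun z => by
        split_ifs
        exacts [rfl, e.symm]
    have h8 := (h7 c).symm.trans (e' ▸ h7 c' : t (g c) = _)
    simpa [Ne.symm h6] using h8
  refine Or.inl ⟨(P.rlp ≤ inj, P.rlp ≤ surj, P.rlp ≤ ind, P.rlp ≤ clo), le_antisymm
    (fun _ _ f hf => ⟨fun h => ub_inj h f hf, fun h => ub_surj h f hf, fun h => ub_ind h f hf,
      fun h => ub_clo h f hf⟩) fun X Y f ⟨h1, h2, h3, h4⟩ => ?_⟩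
  let e2 : Ind f ⟶ TopCat.of (range f) :=
    hom (fun x => ⟨f x, x, rfl⟩) ((cont (ofInd f)).subtype_mk _)
  let e3 : TopCat.of (range f) ⟶ Y := hom Subtype.val continuous_subtype_val
  have s2 : Function.Surjective e2 := fun ⟨_, x, e⟩ => ⟨x, Subtype.ext e⟩
  have i2 : IsInducing e2 := (IsInducing.subtypeVal.of_comp_iff (f := e2)).1 (ind_ofInd f)
  have r3 : range e3 = range f := Subtype.range_coe
  have k1 : P.rlp.rlp.llp.llp.rlp (toInd f) := fun _ _ g hg => by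
    by_cases b3 : P.rlp ≤ ind
    · exact lift_is (Or.inr fun _ _ e => e) (fun x => ⟨x, rfl⟩)
        (((ind_ofInd f).of_comp_iff (f := toInd f)).1 (h3 b3))
    · exact lift_bij (qo_mem b3 hg) ⟨fun _ _ e => e, fun x => ⟨x, rfl⟩⟩
  have k2 : P.rlp.rlp.llp.llp.rlp e2 := fun _ _ g hg => by
    by_cases b1 : P.rlp ≤ inj
    · exact lift_is (Or.inr fun _ _ e => h1 b1 (congrArg Subtype.val e)) s2 i2
    · obtain ⟨_, _, k, hk, h5⟩ := not_le b1
      exact lift_is (Or.inl (inj_of_i (hg _ (i_mem (le_llp_rlp _ _ hk) h5)))) s2 i2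
  have k3 : P.rlp.rlp.llp.llp.rlp e3 := emb_mem Subtype.val_injective IsInducing.subtypeVal
    (fun h y => ⟨⟨y, h2 h y⟩, rfl⟩) (fun h => by rw [r3]; exact (h4 h).2) hex
  exact (P.rlp.rlp.llp.llp.rlp).comp_mem (toInd f) (e2 ≫ e3) k1
    ((P.rlp.rlp.llp.llp.rlp).comp_mem e2 e3 k2 k3)

theorem finite_rrll : (range fun P : MP.{u} => P.rlp.rlp.llp.llp).Finite := by
  refine ((finite_range fun b => (cls.{u} b).llp).union
    (finite_range fun b => (exc.{u} b).rlp.llp.llp)).subset ?_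
  rintro _ ⟨P, rfl⟩
  rcases classify P with ⟨b, h⟩ | ⟨b, h⟩
  · exact Or.inl ⟨b, by simp only [← h, llp_rlp_llp]⟩
  · exact Or.inr ⟨b, by simp only [← h]⟩

end Pool.Agent.Lib.MP_364315_al
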