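import Mathlib

/-!
Quillen negation words acting on classes of continuous maps.
-/

set_option autoImplicit false

open CategoryTheory

universe u

namespace Pool.Agent.Lib.MP_364315_al

/-- The two letters of the alphabet. -/
inductive Letter : Type
  | l : Letter
  | r : Letter

/-- One Quillen negation: `P^l` is the class of maps with the left lifting property against every
map of `P`, and `P^r` the class of maps with the right lifting property against every map
of `P`. -/
def neg (P : MorphismProperty TopCat.{u}) : Letter → MorphismProperty TopCat.{u}
  | Letter.l => P.llp
  | Letter.r => P.rlp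

/-- `P^w` for a word `w = a₁ a₂ ⋯ a_k`: apply `a₁` first, then `a₂`, and so on. -/
def act (P : MorphismProperty TopCat.{u}) (w : FreeMonoid Letter) : MorphismProperty TopCat.{u} :=
  (FreeMonoid.toList w).foldl neg P

/-- The defining relations `lrl = l` and `rlr = r`. -/
def rels (a b : FreeMonoid Letter) : Prop :=
  (a = FreeMonoid.ofList [Letter.l, Letter.r, Letter.l] ∧ b = FreeMonoid.ofList [Letter.l]) ∨
  (a = FreeMonoid.ofList [Letter.r, Letter.l, Letter.r] ∧ b = FreeMonoid.ofList [Letter.r])

end Pool.Agent.Lib.MP_364315_al
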