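import Pool.Agent.Lib.MP_364315_al.Cls

/-!
Six right negations, finiteness of the monoid, and the relations in one letter.
-/

set_option autoImplicit false

open CategoryTheory Topology Set

universe u

namespace Pool.Agent.Lib.MP_364315_al

open MorphismProperty

variable {A B X Y : TopCat.{u}}

/-- The isomorphisms. -/
abbrev iso : MP.{u} := isomorphisms TopCat.{u}

theorem iso_le_rlp (Q : MP.{u}) : iso ≤ Q.rlp := fun _ _ f hf => by
  have : IsIso f := hf
  exact Q.rlp_of_isIso f

theorem iso_rlp : iso.{u}.rlp = ⊤ := le_antisymm le_top fun _ _ f _ _ _ p hp => by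
  have : IsIso p := hp
  infer_instance

theorem top_rlp : (⊤ : MP.{u}).rlp = iso :=
  le_antisymm (fun _ _ f hf => isIso_of_self f (hf f trivial)) (iso_le_rlp _)

theorem spl_of_e {f : X ⟶ Y} (h : HasLiftingProperty (eM Y) f) : spl f := by
  obtain ⟨t, -, h2⟩ := lift_exists h (eM X) (𝟙 Y) (by ext a; exact a.elim)
  exact ⟨t, h2⟩

theorem ind_eM (Y : TopCat.{u}) : IsInducing (eM Y) :=
  ind_mk fun _ _ => ⟨∅, isOpen_empty, Subsingleton.elim _ _⟩

/-- Two open points and a point in the closure of both. -/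
structure Vee : Type u where
  v : Option Bool

instance : TopologicalSpace Vee.{u} where
  IsOpen U := ⟨none⟩ ∈ U → U = univ
  isOpen_univ := fun _ => rfl
  isOpen_inter := fun _ _ h1 h2 h3 => by rw [h1 h3.1, h2 h3.2, inter_self]
  isOpen_sUnion := fun _ h ⟨U, hU, ha⟩ => eq_univ_of_forall fun x => ⟨U, hU, h U hU ha ▸ trivial⟩

theorem four_r (Q : MP.{u}) (hQ : Q ≤ surj) : Q.rlp.rlp.rlp.rlp = iso := by
  refine le_antisymm (fun X Y h hh => ?_) (iso_le_rlp _)
  have h1 : ∀ {A B : TopCat.{u}} (f : A ⟶ B), Function.Injective f → IsInducing f → Q.rlp f :=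
    fun f h1 h2 _ _ g hg => lift_sj (Or.inr h1) (hQ g hg) h2
  have h2 : ∀ {A B : TopCat.{u}} (j : A ⟶ B), Q.rlp.rlp j → spl j := fun j hj =>
    spl_of_e (hj _ (h1 _ (fun a => a.elim) (ind_eM _)))
  have h3 : Q.rlp.rlp.rlp dM := fun A B j hj => mk_fun fun p _ hp _ _ => by
    obtain ⟨s, hs⟩ := h2 j hj
    refine ⟨fun b => p (s b), hp.comp (cont s), fun a => ?_, fun _ => rfl⟩
    let e : TopCat.of (ULift.{u} Bool) ⟶ TopCat.of Vee.{u} :=
      hom (fun b => ⟨some b.down⟩) continuous_of_discreteTopology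
    have he : Function.Injective e := fun ⟨a⟩ ⟨b⟩ h =>
      congrArg ULift.up (Option.some.inj (Vee.mk.inj h))
    have hi : IsInducing e := ind_mk fun U _ => ⟨e '' U, fun ⟨_, _, h⟩ => by
      exact absurd (Vee.mk.inj h) (by simp), he.preimage_image U⟩
    obtain ⟨t, ht, h4, -⟩ := lift_fun (hj e (h1 e he hi)) (fun b => cond b.down (s (j a)) a)
      (fun _ => j a) continuous_of_discreteTopology continuous_const fun ⟨b⟩ => by
        cases b
        exacts [rfl, congrArg (fun m : B ⟶ B => m (j a)) hs]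
    have h5 : (p ∘ t) ⁻¹' {p (t ⟨none⟩)} = univ :=
      (isOpen_discrete _).preimage (hp.comp ht) rfl
    have h6 : ∀ z, p (t z) = p (t ⟨none⟩) := fun z => (Set.ext_iff.1 h5 z).2 trivial
    exact (congrArg p (h4 ⟨true⟩)).symm.trans (((h6 _).trans (h6 _).symm).trans
      (congrArg p (h4 ⟨false⟩)))
  have h4 : Function.Injective h := inj_of_d (hh _ h3)
  exact isIso_of_self h (hh h fun _ _ j hj => spl_le j (h2 j hj) h h4)

theorem dichotomy_r (P : MP.{u}) : P.rlp ≤ surj ∨ P.rlp.rlp ≤ surj := by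
  refine or_iff_not_imp_left.2 fun h _ _ _ hf => surj_of_e (hf _ (empty_mem h _ ?_))
  exact inferInstanceAs (IsEmpty PEmpty)

theorem six_r (P : MP.{u}) : P.rlp.rlp.rlp.rlp.rlp.rlp = iso ∨ P.rlp.rlp.rlp.rlp.rlp.rlp = ⊤ := by
  rcases dichotomy_r P with h | h
  · rw [four_r _ h, iso_rlp]
    exact Or.inr rfl
  · exact Or.inl (four_r _ h)

theorem six_l (P : MP.{u}) : P.llp.llp.llp.llp.llp.llp = iso ∨ P.llp.llp.llp.llp.llp.llp = ⊤ := by
  rcases dichotomy P with h | h
  · rw [four _ h, iso_llp]
    exact Or.inr rfl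
  · exact Or.inl (four _ h)

open Letter

/-- The action of a list of letters. -/
def ev (w : List Letter) (P : MP.{u}) : MP.{u} := w.foldl neg P

theorem ev_append (a b : List Letter) (P : MP.{u}) : ev (a ++ b) P = ev b (ev a P) :=
  List.foldl_append

/-- The reversed list ends with one of five patterns. -/
def hit : List Letter → Bool
  | l :: r :: l :: _ => true
  | r :: l :: r :: _ => true
  | l :: l :: r :: r :: _ => true
  | l :: l :: l :: l :: l :: l :: _ => true
  | r :: r :: r :: r :: r :: r :: _ => true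
  | _ => false

/-- Every continuation of length `n` meets a pattern. -/
def good : ℕ → List Letter → Bool
  | 0, a => hit a
  | n + 1, a => hit a || (good n (l :: a) && good n (r :: a))

theorem good_spec : ∀ (n : ℕ) (a w : List Letter), good n a = true → n ≤ w.length →
    ∃ b c, w = b ++ c ∧ b.length ≤ n ∧ hit (b.reverse ++ a) = true
  | 0, a, w, h, _ => ⟨[], w, rfl, le_rfl, h⟩
  | n + 1, a, [], _, h => absurd h (by simp)
  | n + 1, a, x :: w, h, hw => by
    rcases Bool.or_eq_true _ _ ▸ h with h | h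
    · exact ⟨[], _, rfl, Nat.zero_le _, h⟩
    · have h1 : good n (x :: a) = true := by
        cases x
        exacts [(Bool.and_eq_true _ _ ▸ h).1, (Bool.and_eq_true _ _ ▸ h).2]
      obtain ⟨b, c, rfl, h2, h3⟩ := good_spec n _ w h1 (by simpa using hw)
      exact ⟨x :: b, c, rfl, by simpa using h2, by simpa using h3⟩

/-- The finitely many classes that long reduced words must meet. -/
def core : Set MP.{u} := {iso, ⊤} ∪ range fun P : MP.{u} => P.rlp.rlp.llp.llp

theorem hit_spec (a : List Letter) (h : hit a = true) :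
    (∃ b : List Letter, b.length < a.length ∧ ev.{u} a.reverse = ev b) ∨
      ∀ P, ev.{u} a.reverse P ∈ core := by
  unfold hit at h
  split at h
  · rename_i t
    refine Or.inl ⟨t.reverse ++ [l], by simp, funext fun P => ?_⟩
    simp only [List.reverse_cons, ev_append]
    exact llp_rlp_llp _
  · rename_i t
    refine Or.inl ⟨t.reverse ++ [r], by simp, funext fun P => ?_⟩
    simp only [List.reverse_cons, ev_append]
    exact rlp_llp_rlp _
  · refine Or.inr fun P => Or.inr ?_
    simp only [List.reverse_cons, ev_append]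
    exact ⟨_, rfl⟩
  · refine Or.inr fun P => Or.inl ?_
    simp only [List.reverse_cons, ev_append]
    exact six_l _
  · refine Or.inr fun P => Or.inl ?_
    simp only [List.reverse_cons, ev_append]
    exact six_r _
  · simp at h

theorem long_word (w : List Letter) (hw : 13 ≤ w.length) :
    (∃ v : List Letter, v.length < w.length ∧ ev.{u} w = ev v) ∨
      ∃ b c, w = b ++ c ∧ b.length ≤ 13 ∧ c.length < w.length ∧ ∀ P, ev.{u} b P ∈ core := by
  obtain ⟨b, c, rfl, h1, h2⟩ := good_spec 13 [] w (by decide) hw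
  rw [List.append_nil] at h2
  rcases hit_spec _ h2 with ⟨v, h3, h4⟩ | h3
  · refine Or.inl ⟨v ++ c, by simpa using h3, funext fun P => ?_⟩
    rw [ev_append, ev_append, ← h4, List.reverse_reverse]
  · refine Or.inr ⟨b, c, rfl, h1, ?_, by simpa using h3⟩
    rcases b with _ | ⟨x, b⟩
    · simp [hit] at h2
    · simp only [List.length_append, List.length_cons]
      omega

instance : Finite Letter := Finite.of_surjective (fun b : Bool => cond b l r) fun x => by
  cases x
  exacts [⟨true, rfl⟩, ⟨false, rfl⟩]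

theorem finite_ev : (range ev.{u}).Finite := by
  classical
  have hc : core.{u}.Finite := (toFinite _).union finite_rrll
  have hW := List.finite_length_le Letter 13
  have hF := hW.image2 ev.{u} hc
  have h1 : ∀ (n : ℕ) (w : List Letter), w.length = n → ∀ Q ∈ core.{u},
      ev w Q ∈ image2 ev {w | w.length ≤ 13} core := by
    intro n
    induction n using Nat.strong_induction_on with
    | _ n ih =>
      rintro w rfl Q hQ
      by_cases hw : w.length ≤ 13
      · exact mem_image2_of_mem hw hQ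
      rcases long_word w (by omega) with ⟨v, h1, h2⟩ | ⟨b, c, rfl, -, h1, h2⟩
      · rw [h2]
        exact ih _ h1 v rfl Q hQ
      · rw [ev_append]
        exact ih _ h1 c rfl _ (h2 Q)
  have := hc.to_subtype
  have := hF.to_subtype
  let G : List Letter → (core.{u} → image2 ev.{u} {w | w.length ≤ 13} core) → MP.{u} → MP.{u} :=
    fun b φ P => if h : ev b P ∈ core then φ ⟨_, h⟩ else P
  refine ((hW.image ev).union (hW.image2 G finite_univ)).subset ?_
  rintro _ ⟨w, rfl⟩
  induction hn : w.length using Nat.strong_induction_on generalizing w with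
  | _ n ih =>
    subst hn
    by_cases hw : w.length ≤ 13
    · exact Or.inl (mem_image_of_mem _ hw)
    rcases long_word w (by omega) with ⟨v, h2, h3⟩ | ⟨b, c, rfl, h2, -, h3⟩
    · rw [h3]
      exact ih _ h2 v rfl
    · refine Or.inr ⟨b, h2, fun Q => ⟨ev c Q.1, h1 _ c rfl _ Q.2⟩, trivial, funext fun P => ?_⟩
      simp only [G, dif_pos (h3 P), ev_append]

theorem not_self {Q : MP.{u}} {f : A ⟶ B} (hf : Q f) (h : ¬ Function.Bijective f) :
    Q.llp ≠ ⊤ ∧ Q.rlp ≠ ⊤ := by
  have h1 : ¬ HasLiftingProperty f f := fun h1 => by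
    have := isIso_of_self f h1
    exact h (ConcreteCategory.bijective_of_isIso f)
  exact ⟨fun e => h1 ((show Q.llp f from e ▸ trivial) f hf),
    fun e => h1 ((show Q.rlp f from e ▸ trivial) f hf)⟩

theorem i_not_inj : ¬ Function.Injective iM.{u} := fun h => by
  simpa using h (a₁ := ⟨0⟩) (a₂ := ⟨1⟩) rfl

theorem sharp_l : ∃ P : MP.{u}, P.llp.llp.llp.llp.llp ≠ P.llp.llp.llp.llp.llp.llp.llp := by
  let P : MP.{u} := fun _ _ f => HasLiftingProperty iM f
  have h1 : P.llp.llp ≤ inj := fun _ _ _ hg => inj_of_i (hg _ fun _ _ _ h => h)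
  have h2 : P.llp.llp pI := fun A B f hf => by
    have hs : Function.Surjective f := surj_of_p (hf _ (mk_fun fun _ v _ hv w =>
      ⟨fun _ => PUnit.unit, continuous_const, fun _ => rfl, fun _ => w ⟨0⟩⟩))
    have hi : IsInducing f := ind_of_s (hf _ (mk_fun fun p _ hp _ _ => by
      refine ⟨fun _ => p ⟨0⟩, continuous_const, fun a => ?_, fun _ => rfl⟩
      have h3 := ((in_insep ⟨0⟩ a).map hp).mem_open_iff (ch_open 1)
      generalize p ⟨0⟩ = x at h3 ⊢
      generalize p a = y at h3 ⊢
      obtain ⟨x⟩ := x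
      obtain ⟨y⟩ := y
      fin_cases x <;> fin_cases y <;> simp_all))
    exact lift_is (Or.inl fun _ _ _ => rfl) hs hi
  have h3 : P.llp.llp.llp.llp (eM Pt) := fun _ _ _ hf => e_lift (surj_of_p (hf _ h2))
  refine ⟨P, ?_⟩
  rw [four _ h1, iso_llp]
  exact (not_self h3 fun h => (h.2 PUnit.unit).elim fun a _ => a.elim).1

theorem sharp_r : ∃ P : MP.{u}, P.rlp.rlp.rlp.rlp.rlp ≠ P.rlp.rlp.rlp.rlp.rlp.rlp.rlp := by
  let P : MP.{u} := fun X _ _ => Nonempty X
  have h1 : P.rlp.rlp ≤ surj := fun _ _ _ hf => surj_of_e (hf _ fun _ _ _ ⟨a⟩ =>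
    mk_fun fun p _ _ _ _ => (p a).elim)
  have h2 : P.rlp.rlp dM := fun A B f hf => by
    by_cases hA : Nonempty A
    · have := isIso_of_self f (hf f hA)
      infer_instance
    · exact mk_fun fun _ _ _ _ _ =>
        ⟨fun _ => ⟨true⟩, continuous_const, fun a => absurd ⟨a⟩ hA, fun _ => rfl⟩
  have h3 : P.rlp.rlp.rlp.rlp iM := fun _ _ _ hf =>
    lift_is (Or.inl (inj_of_d (hf _ h2))) (fun _ => ⟨⟨0⟩, rfl⟩) ind_toPt_in
  refine ⟨P, ?_⟩
  rw [four_r _ h1, iso_rlp]
  exact (not_self h3 fun h => i_not_inj h.1).2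

theorem act_pow (x : Letter) (n : ℕ) (P : MP.{u}) :
    act P (FreeMonoid.of x ^ n) = (fun Q => neg Q x)^[n] P := by
  induction n with
  | zero => rfl
  | succ n ih =>
    rw [pow_succ, Function.iterate_succ_apply', ← ih]
    exact List.foldl_append

theorem iter_iff {C : Type*} (f : C → C) {a b : C} (hab : a ≠ b) (ha : f a = b) (hb : f b = a)
    (h6 : ∀ c, f^[6] c = a ∨ f^[6] c = b) (h5 : ∃ c, f^[5] c ≠ f^[7] c) (m n : ℕ) :
    f^[m] = f^[n] ↔ m = n ∨ (6 ≤ m ∧ 6 ≤ n ∧ m % 2 = n % 2) := by
  have h2 : ∀ k, f^[6 + 2 * k] = f^[6] := fun k => funext fun c => by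
    rw [add_comm, Function.iterate_add_apply, Function.iterate_mul]
    refine Function.iterate_fixed ?_ k
    rcases h6 c with h | h <;> simp [h, ha, hb]
  have h3 : ∀ k, 6 ≤ k → f^[k] = f^[6 + k % 2] := fun k hk => by
    conv_lhs => rw [show k = k % 2 + (6 + 2 * ((k - 6) / 2)) by omega]
    rw [Function.iterate_add, h2, ← Function.iterate_add, add_comm]
  have h4 : ∀ m n, m < n → f^[m] = f^[n] → 6 ≤ m ∧ m % 2 = n % 2 := fun m n hmn h => by
    have h7 : ∀ k, f^[k + m] = f^[k + n] := fun k => by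
      rw [Function.iterate_add, Function.iterate_add, h]
    have h8 : m % 2 = n % 2 := by
      by_contra h8
      have h9 := h7 6
      rw [h3 _ (by omega), h3 (6 + n) (by omega)] at h9
      have h10 : f^[6] = f^[7] := by
        rcases Nat.mod_two_eq_zero_or_one m with e | e
        · rwa [show (6 + m) % 2 = 0 by omega, show (6 + n) % 2 = 1 by omega] at h9
        · rw [show (6 + m) % 2 = 1 by omega, show (6 + n) % 2 = 0 by omega] at h9
          exact h9.symm
      have h11 := congrFun h10 a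
      rw [Function.iterate_succ_apply' f 6] at h11
      rcases h6 a with e | e <;> rw [e] at h11
      exacts [hab (h11.trans ha), hab (h11.trans hb).symm]
    refine ⟨by_contra fun h9 => ?_, h8⟩
    obtain ⟨c, hc⟩ := h5
    have h10 := h7 (5 - m)
    rw [show 5 - m + m = 5 by omega, h3 (5 - m + n) (by omega),
      show 6 + (5 - m + n) % 2 = 7 by omega] at h10
    exact hc (congrFun h10 c)
  refine ⟨fun h => ?_, fun h => ?_⟩
  · rcases lt_trichotomy m n with e | e | e
    · have := h4 m n e h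
      omega
    · exact Or.inl e
    · have := h4 n m e h.symm
      omega
  · rcases h with rfl | ⟨h7, h8, h9⟩
    · rfl
    · rw [h3 m h7, h3 n h8, h9]

theorem one_letter (x : Letter) (m n : ℕ) :
    (∀ P : MP.{u}, act P (FreeMonoid.of x ^ m) = act P (FreeMonoid.of x ^ n)) ↔
      m = n ∨ (6 ≤ m ∧ 6 ≤ n ∧ m % 2 = n % 2) := by
  have h0 : iso.{u} ≠ ⊤ := fun h => i_not_inj (by
    have : IsIso iM.{u} := (show iso iM from h ▸ trivial)
    exact (ConcreteCategory.bijective_of_isIso iM).1)
  simp only [act_pow, ← funext_iff]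
  cases x
  · exact iter_iff _ h0 iso_llp top_llp six_l sharp_l m n
  · exact iter_iff _ h0 iso_rlp top_rlp six_r sharp_r m n

theorem pow_inj (x : Letter) :
    Function.Injective fun n : ℕ => PresentedMonoid.mk rels (FreeMonoid.of x ^ n) := by
  intro m n h
  have h2 := congrArg (PresentedMonoid.lift deg deg_rels) h
  simp only [map_pow] at h2
  change deg x ^ m = deg x ^ n at h2
  have h3 := congrArg Multiplicative.toAdd h2
  cases x <;> simpa [deg] using h3

theorem finite_act :
    (range fun (w : FreeMonoid Letter) (P : MP.{u}) => act P w).Finite :=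
  finite_ev.subset fun _ ⟨w, h⟩ => ⟨FreeMonoid.toList w, h⟩

end Pool.Agent.Lib.MP_364315_al
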