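import Pool.Agent.Lib.MP_364315_al.Base

/-!
Lifting properties against small test maps.
-/

set_option autoImplicit false

open CategoryTheory Topology Set

universe u

namespace Pool.Agent.Lib.MP_364315_al

/-- Classes of continuous maps. -/
abbrev MP := MorphismProperty TopCat.{u}

/-- Surjective maps. -/
def surj : MP.{u} := fun _ _ f => Function.Surjective f

/-- Maps whose source has the induced topology. -/
def ind : MP.{u} := fun _ _ f => IsInducing f

/-- Inducing maps with closed image. -/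
def clo : MP.{u} := fun _ _ f => IsInducing f ∧ IsClosed (range f)

/-- The finite chain with the topology of upper sets. -/
structure ChT (n : ℕ) : Type u where
  v : Fin n

instance (n : ℕ) : TopologicalSpace (ChT.{u} n) where
  IsOpen U := ∀ a b : ChT.{u} n, a.v ≤ b.v → a ∈ U → b ∈ U
  isOpen_univ := fun _ _ _ _ => trivial
  isOpen_inter := fun _ _ h1 h2 a b h h3 => ⟨h1 a b h h3.1, h2 a b h h3.2⟩
  isOpen_sUnion := fun _ h a b hab ⟨U, hU, ha⟩ => ⟨U, hU, h U hU a b hab ha⟩

/-- The finite indiscrete space. -/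
structure InT (n : ℕ) : Type u where
  v : Fin n

instance (n : ℕ) : TopologicalSpace (InT.{u} n) := ⊤

theorem ch_open {n : ℕ} (k : Fin n) : IsOpen {a : ChT.{u} n | k ≤ a.v} :=
  fun _ _ h ha => le_trans ha h

theorem ch_spec {n : ℕ} {a b : ChT.{u} n} (h : a.v ≤ b.v) : b ⤳ a :=
  specializes_iff_forall_open.2 fun _ hU ha => hU a b h ha

theorem ch10 : (⟨1⟩ : ChT.{u} 2) ⤳ ⟨0⟩ := ch_spec (by decide)

theorem in_insep {n : ℕ} (a b : InT.{u} n) : Inseparable a b :=
  inseparable_iff_forall_isOpen.2 fun U hU => by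
    rcases (TopologicalSpace.isOpen_top_iff U).1 hU with rfl | rfl <;> simp

theorem cont_in {n : ℕ} {Z : Type u} [TopologicalSpace Z] (f : Z → InT.{u} n) : Continuous f :=
  continuous_top

theorem cont_insep {Z W : Type u} [TopologicalSpace Z] [TopologicalSpace W] {f : Z → W}
    (h : ∀ a b, Inseparable (f a) (f b)) : Continuous f := by
  refine ⟨fun U hU => ?_⟩
  rcases (f ⁻¹' U).eq_empty_or_nonempty with h0 | ⟨a, ha⟩
  · rw [h0]; exact isOpen_empty
  · rw [eq_univ_of_forall fun b => show b ∈ f ⁻¹' U from ((h a b).mem_open_iff hU).1 ha]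
    exact isOpen_univ

theorem cont_ite {Z W : Type u} [TopologicalSpace Z] [TopologicalSpace W] {U : Set Z}
    [∀ z, Decidable (z ∈ U)] (hU : IsOpen U) {x x' : W} (h : x ⤳ x') : Continuous fun z => if z ∈ U then x else x' :=
  hU.continuous_piecewise_of_specializes continuous_const continuous_const fun _ => h

variable {A B X Y : TopCat.{u}}

theorem cont (f : X ⟶ Y) : Continuous f := f.hom.continuous

/-- A continuous function as a morphism. -/
def hom (f : X → Y) (h : Continuous f) : X ⟶ Y := TopCat.ofHom ⟨f, h⟩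

theorem lift_fun {i : A ⟶ B} {p : X ⟶ Y} (h : HasLiftingProperty i p) (f : A → X) (g : B → Y)
    (hf : Continuous f) (hg : Continuous g) (w : ∀ a, p (f a) = g (i a)) :
    ∃ t : B → X, Continuous t ∧ (∀ a, t (i a) = f a) ∧ ∀ b, p (t b) = g b := by
  obtain ⟨t, h1, h2⟩ := lift_exists h (hom f hf) (hom g hg) (by ext a; exact w a)
  exact ⟨t, cont t, fun a => congrArg (fun m : A ⟶ X => m a) h1,
    fun b => congrArg (fun m : B ⟶ Y => m b) h2⟩

theorem mk_fun {i : A ⟶ B} {p : X ⟶ Y}
    (h : ∀ (f : A → X) (g : B → Y), Continuous f → Continuous g → (∀ a, p (f a) = g (i a)) →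
      ∃ t : B → X, Continuous t ∧ (∀ a, t (i a) = f a) ∧ ∀ b, p (t b) = g b) :
    HasLiftingProperty i p := mk_lift fun f g w => by
  obtain ⟨t, ht, h1, h2⟩ := h f g (cont f) (cont g) fun a => congrArg (fun m : A ⟶ Y => m a) w
  exact ⟨hom t ht, by ext a; exact h1 a, by ext b; exact h2 b⟩

theorem mk_ind {i : A ⟶ B} {p : X ⟶ Y} (hp : IsInducing p)
    (hi : Function.Injective i ∨ Function.Injective p)
    (h : ∀ g : B → Y, Continuous g → (∀ a, g (i a) ∈ range p) → ∀ b, g b ∈ range p) :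
    HasLiftingProperty i p := by
  classical
  refine mk_fun fun f g _ hg w => ?_
  choose s hs using h g hg fun a => ⟨f a, w a⟩
  have key : ∀ a a', i a = i a' → f a = f a' := fun a a' e =>
    hi.elim (fun h1 => congrArg f (h1 e)) fun h1 => h1 (by rw [w, w, e])
  have h2 : ∀ b, p (if h : ∃ a, i a = b then f h.choose else s b) = g b := fun b => by
    split_ifs with h1
    · rw [w, h1.choose_spec]
    · exact hs b
  refine ⟨fun b => if h : ∃ a, i a = b then f h.choose else s b, ?_, fun a => ?_, h2⟩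
  · rw [hp.continuous_iff]
    exact (funext h2 : (p ∘ fun b => if h : ∃ a, i a = b then f h.choose else s b) = g) ▸ hg
  · have h1 : ∃ a', i a' = i a := ⟨a, rfl⟩
    simp only [dif_pos h1]
    exact key _ _ h1.choose_spec

/-- Indiscrete pair to the point. -/
abbrev iM : TopCat.of (InT.{u} 2) ⟶ Pt := toPt _

/-- A point of the indiscrete pair. -/
abbrev pI : Pt ⟶ TopCat.of (InT.{u} 2) := fromPt (X := TopCat.of (InT.{u} 2)) ⟨0⟩

/-- Sierpinski space to the point. -/
abbrev sM : TopCat.of (ChT.{u} 2) ⟶ Pt := toPt _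

/-- The closed point of Sierpinski space. -/
abbrev pC : Pt ⟶ TopCat.of (ChT.{u} 2) := fromPt (X := TopCat.of (ChT.{u} 2)) ⟨0⟩

/-- Sierpinski space to the indiscrete pair. -/
def sg : TopCat.of (ChT.{u} 2) ⟶ TopCat.of (InT.{u} 2) := hom (fun a => ⟨a.v⟩) (cont_in _)

/-- The four point chain with its two ends identified. -/
def zM : TopCat.of (ChT.{u} 4) ⟶ TopCat.of (InT.{u} 3) :=
  hom (fun a => ⟨![0, 1, 2, 0] a.v⟩) (cont_in _)

/-- A test map for closed image. -/
def tM : TopCat.of {p : ChT.{u} 2 × InT.{u} 2 // p.1.v = 0 → p.2.v = 0} ⟶ TopCat.of (InT.{u} 2) :=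
  hom (fun p => p.1.2) (cont_in _)

/-- Discrete pair to the point. -/
abbrev dM : TopCat.of (ULift.{u} Bool) ⟶ Pt := toPt _

/-- The map from the empty space. -/
def eM (Z : TopCat.{u}) : TopCat.of PEmpty.{u + 1} ⟶ Z :=
  hom (fun a => a.elim) continuous_of_discreteTopology

/-- Sets with open preimage are open. -/
def Qo (g : A ⟶ B) : Prop := ∀ V : Set B, IsOpen (g ⁻¹' V) → IsOpen V

theorem inj_of_i {g : A ⟶ B} (h : HasLiftingProperty g iM) : Function.Injective g := by
  classical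
  intro a a' e
  obtain ⟨t, -, h1, -⟩ := lift_fun h (fun x => ⟨if x = a then 1 else 0⟩) (fun _ => PUnit.unit)
    (cont_in _) continuous_const fun _ => rfl
  have h2 := (h1 a).symm.trans (e ▸ h1 a' : t (g a) = _)
  by_contra hne
  simp [Ne.symm hne] at h2

theorem surj_of_p {g : A ⟶ B} (h : HasLiftingProperty g pI) : Function.Surjective g := by
  classical
  intro b
  obtain ⟨t, -, -, h1⟩ := lift_fun h (fun _ => PUnit.unit)
    (fun y => ⟨if y ∈ range g then 0 else 1⟩) continuous_const (cont_in _) fun a => by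
      rw [if_pos (mem_range_self a)]
      rfl
  by_contra hne
  have h2 : (⟨0⟩ : InT.{u} 2) = ⟨if b ∈ range g then 0 else 1⟩ := h1 b
  rw [if_neg (show b ∉ range g from hne)] at h2
  simp at h2

theorem ind_mk {g : A ⟶ B} (h : ∀ U, IsOpen U → ∃ V, IsOpen V ∧ g ⁻¹' V = U) : IsInducing g :=
  ⟨TopologicalSpace.ext_iff.2 fun U =>
    ⟨fun hU => h U hU, fun ⟨_, hV, e⟩ => e ▸ hV.preimage (cont g)⟩⟩

theorem ind_of_s {g : A ⟶ B} (h : HasLiftingProperty g sM) : IsInducing g := by
  classical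
  refine ind_mk fun U hU => ?_
  obtain ⟨t, ht, h1, -⟩ := lift_fun h (fun x => if x ∈ U then ⟨1⟩ else ⟨0⟩) (fun _ => PUnit.unit)
    (cont_ite hU (ch_spec (by decide))) continuous_const fun _ => rfl
  refine ⟨_, (ch_open 1).preimage ht, ext fun a => ?_⟩
  simp only [mem_preimage, mem_ofPred_eq, h1]
  split_ifs with h2 <;> simp [h2]

theorem dense_of_p {g : A ⟶ B} (h : HasLiftingProperty g pC) : DenseRange g := by
  classical
  intro b
  obtain ⟨t, -, -, h1⟩ := lift_fun h (fun _ => PUnit.unit)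
    (fun y => if y ∈ (closure (range g))ᶜ then ⟨1⟩ else ⟨0⟩) continuous_const
    (cont_ite isClosed_closure.isOpen_compl ch10) fun a => by
      rw [if_neg fun h => h (subset_closure (mem_range_self a))]
      rfl
  by_contra hne
  have h2 : (⟨0⟩ : ChT.{u} 2) = if b ∈ (closure (range g))ᶜ then ⟨1⟩ else ⟨0⟩ := h1 b
  rw [if_pos (show b ∈ (closure (range g))ᶜ from hne)] at h2
  simp at h2

theorem qo_of_sg {g : A ⟶ B} (h : HasLiftingProperty g sg) : Qo g := by
  classical
  intro V hV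
  obtain ⟨t, ht, -, h1⟩ := lift_fun h (fun x => if x ∈ g ⁻¹' V then ⟨1⟩ else ⟨0⟩)
    (fun y => if y ∈ V then ⟨1⟩ else ⟨0⟩) (cont_ite hV (ch_spec (by decide))) (cont_in _)
    fun a => by by_cases h2 : g a ∈ V <;> simp only [mem_preimage, h2, if_true, if_false] <;> rfl
  convert (ch_open 1).preimage ht using 1
  ext b
  have h2 : (⟨(t b).v⟩ : InT.{u} 2) = if b ∈ V then ⟨1⟩ else ⟨0⟩ := h1 b
  by_cases h3 : b ∈ V <;> simp only [h3, if_true, if_false, InT.mk.injEq] at h2 <;> simp [h2, h3]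

theorem qo_of_z {g : A ⟶ B} (h : HasLiftingProperty g zM) : Qo g := by
  classical
  intro V hV
  obtain ⟨t, ht, -, h1⟩ := lift_fun h (fun x => if x ∈ g ⁻¹' V then ⟨2⟩ else ⟨1⟩)
    (fun y => if y ∈ V then ⟨2⟩ else ⟨1⟩) (cont_ite hV (ch_spec (by decide))) (cont_in _)
    fun a => by by_cases h2 : g a ∈ V <;> simp only [mem_preimage, h2, if_true, if_false] <;> rfl
  convert (ch_open 2).preimage ht using 1
  ext b
  have h2 : (⟨![0, 1, 2, 0] (t b).v⟩ : InT.{u} 3) = if b ∈ V then ⟨2⟩ else ⟨1⟩ := h1 b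
  simp only [mem_preimage, mem_ofPred_eq]
  generalize (t b).v = k at h2
  by_cases h3 : b ∈ V <;> simp only [h3, if_true, if_false, InT.mk.injEq] at h2 <;>
    fin_cases k <;> simp_all

theorem clo_of_t {g : A ⟶ B} (h : HasLiftingProperty g tM) : IsClosed (range g) := by
  classical
  obtain ⟨t, ht, h1, h2⟩ := lift_fun h (fun _ => ⟨(⟨0⟩, ⟨0⟩), fun _ => rfl⟩)
    (fun y => ⟨if y ∈ range g then 0 else 1⟩) continuous_const (cont_in _) fun a => by
      rw [if_pos (mem_range_self a)]
      rfl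
  rw [← isOpen_compl_iff]
  convert (ch_open 1).preimage (continuous_fst.comp (continuous_subtype_val.comp ht)) using 1
  ext b
  change b ∉ range g ↔ 1 ≤ (t b).1.1.v
  by_cases h3 : b ∈ range g
  · obtain ⟨a, rfl⟩ := h3
    rw [h1]
    simp
  · have h4 : (t b).1.2 = ⟨if b ∈ range g then 0 else 1⟩ := h2 b
    rw [if_neg h3] at h4
    have h5 := (t b).2
    rw [h4] at h5
    generalize (t b).1.1.v = k at h5
    fin_cases k <;> simp_all

theorem inj_of_d {f : X ⟶ Y} (h : HasLiftingProperty dM f) : Function.Injective f := by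
  intro x x' e
  obtain ⟨t, -, h1, -⟩ := lift_fun h (fun b => cond b.down x x') (fun _ => f x)
    continuous_of_discreteTopology continuous_const fun ⟨b⟩ => by cases b <;> simp [e]
  exact (h1 ⟨true⟩).symm.trans (h1 ⟨false⟩)

theorem surj_of_e {f : X ⟶ Y} (h : HasLiftingProperty (eM Pt) f) : Function.Surjective f := by
  intro y
  obtain ⟨t, -, -, h1⟩ := lift_fun h (fun a => a.elim) (fun _ => y)
    continuous_of_discreteTopology continuous_const fun a => a.elim
  exact ⟨_, h1 PUnit.unit⟩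

/-- The source of `f` with the induced topology. -/
def Ind (f : X ⟶ Y) : TopCat.{u} := @TopCat.of X (TopologicalSpace.induced f Y.str)

/-- The identity to the induced topology. -/
def toInd (f : X ⟶ Y) : X ⟶ Ind f :=
  hom (fun x => x) (continuous_induced_rng.2 (cont f))

/-- The map from the induced topology. -/
def ofInd (f : X ⟶ Y) : Ind f ⟶ Y := hom (fun x => f x) continuous_induced_dom

theorem ind_ofInd (f : X ⟶ Y) : IsInducing (ofInd f) := ⟨rfl⟩

theorem ind_of_toInd {f : X ⟶ Y} (h : HasLiftingProperty (toInd f) f) : IsInducing f := by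
  obtain ⟨t, ht, h1, -⟩ := lift_fun h id (ofInd f) continuous_id (cont _) fun _ => rfl
  refine ind_mk fun U hU => ?_
  obtain ⟨V, hV, e⟩ := (ind_ofInd f).isOpen_iff.1 (hU.preimage ht)
  refine ⟨V, hV, ext fun x => ?_⟩
  have h2 : t x = x := h1 x
  have h3 : f x ∈ V ↔ t x ∈ U := Set.ext_iff.1 e x
  rwa [h2] at h3

theorem lift_bij {g : A ⟶ B} {f : X ⟶ Y} (hg : Qo g) (hf : Function.Bijective f) :
    HasLiftingProperty g f := by
  refine mk_fun fun a b ha _ w => ?_
  choose t ht using fun y => hf.2 (b y)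
  have h1 : ∀ x, t (g x) = a x := fun x => hf.1 (by rw [ht, w])
  refine ⟨t, ⟨fun W hW => hg _ ?_⟩, h1, ht⟩
  rw [← preimage_comp, show t ∘ g = a from funext h1]
  exact hW.preimage ha

theorem ind_toPt_in {n : ℕ} : IsInducing (toPt (TopCat.of (InT.{u} n))) :=
  ind_mk fun U hU => by
    rcases (TopologicalSpace.isOpen_top_iff U).1 hU with rfl | rfl
    exacts [⟨∅, isOpen_empty, rfl⟩, ⟨univ, isOpen_univ, rfl⟩]

theorem ind_fromPt (x : X) : IsInducing (fromPt x) :=
  ind_mk fun U _ => by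
    rcases U.eq_empty_or_nonempty with rfl | h
    · exact ⟨∅, isOpen_empty, rfl⟩
    · exact ⟨univ, isOpen_univ, (Subsingleton.eq_univ_of_nonempty h).symm⟩

theorem ind_lift_s {g : A ⟶ B} (hg : IsInducing g) : HasLiftingProperty g sM := by
  classical
  refine mk_fun fun a _ ha _ _ => ?_
  obtain ⟨V, hV, e⟩ := hg.isOpen_iff.1 ((ch_open 1).preimage ha)
  refine ⟨fun y => if y ∈ V then ⟨1⟩ else ⟨0⟩, cont_ite hV (ch_spec (by decide)), fun x => ?_,
    fun _ => rfl⟩
  have h1 : g x ∈ V ↔ 1 ≤ (a x).v := Set.ext_iff.1 e x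
  simp only [h1]
  generalize a x = k
  obtain ⟨k⟩ := k
  fin_cases k <;> simp

theorem clo_lift_t {g : A ⟶ B} (hg : clo g) : HasLiftingProperty g tM := by
  classical
  refine mk_fun fun a b ha _ w => ?_
  obtain ⟨V, hV, e⟩ := hg.1.isOpen_iff.1
    ((ch_open 1).preimage (continuous_fst.comp (continuous_subtype_val.comp ha)))
  have h1 : ∀ x, (if g x ∈ V ∪ (range g)ᶜ then (⟨1⟩ : ChT.{u} 2) else ⟨0⟩) = (a x).1.1 :=
    fun x => by
      have h1 : g x ∈ V ↔ 1 ≤ (a x).1.1.v := Set.ext_iff.1 e x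
      simp only [mem_union, h1, mem_compl_iff, mem_range_self, not_true, or_false]
      generalize (a x).1.1 = k
      obtain ⟨k⟩ := k
      fin_cases k <;> simp
  refine ⟨fun y => ⟨(if y ∈ V ∪ (range g)ᶜ then ⟨1⟩ else ⟨0⟩, b y), fun h => ?_⟩,
    ((cont_ite (hV.union hg.2.isOpen_compl) ch10).prodMk (cont_in _)).subtype_mk _,
    fun x => Subtype.ext (Prod.ext (h1 x) (w x).symm), fun _ => rfl⟩
  by_cases h2 : y ∈ range g
  · obtain ⟨x, rfl⟩ := h2
    rw [← w x]
    exact (a x).2 (h1 x ▸ h)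
  · rw [if_pos (show y ∈ V ∪ (range g)ᶜ from Or.inr h2)] at h
    simp at h

end Pool.Agent.Lib.MP_364315_al
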